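import Pool.Agent.MP_17e62b_gt.Disc

namespace Pool.Agent.Results.MP_17e62b_gt.NotSmoothLimit

open Pool.Agent.MP_17e62b_gt
open scoped ENNReal

theorem result : ∃ S : Surface 3, S.IsSaddle ∧ ∃ ε : ℝ≥0∞, 0 < ε ∧
    ∀ k : ℕ, 1 ≤ k → ∀ T : Surface 3, T.IsImmersion k → T.IsSaddle → ε ≤ frechetDist S T :=
  main

end Pool.Agent.Results.MP_17e62b_gt.NotSmoothLimit
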