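import Pool.Agent.MP_17e62b_gt.Mg.G_All

namespace Pool.Agent.Results.MP_17e62b_gt.SaddlePolyhedra

open Pool.Agent.MP_17e62b_gt
open scoped ENNReal

theorem result : ∀ (n : ℕ) (S : Surface n), S.IsSaddle → ∀ ε : ℝ≥0∞, 0 < ε →
    ∃ T : Surface n, T.IsSaddle ∧ T.IsPolyhedral ∧ frechetDist S T < ε :=
  fun _ S hS _ hε => G.all_main S hS hε

end Pool.Agent.Results.MP_17e62b_gt.SaddlePolyhedra
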